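import Pool.Agent.helper38.AT.Spec
import Pool.Agent.helper37.MK.MD

/-!
# Row MDG of the project AT (MP_bf63dc_nt): the numbers
-/

set_option autoImplicit false

namespace Pool.Agent.AT

open Finset Pool.Agent.helper39.MT Pool.Agent.helper85.FC Pool.Agent.MK

open Classical in
/-- Row MDG: the numbers, with many forms in each cluster. -/
theorem MDG : MDG_stmt := by
  intro T ε hε hε1
  obtain ⟨C₁, hC₁, hup⟩ := HP_upper
  have hC0 : 0 < C₁ := by linarith
  obtain ⟨J, hJm⟩ := exists_nat_ge (max (2560 * T * C₁ ^ 2 / ε ^ 2) T)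
  have hJ : 2560 * T * C₁ ^ 2 / ε ^ 2 ≤ J := (le_max_left _ _).trans hJm
  have hTJ : T ≤ J := (le_max_right _ _).trans hJm
  have hJ0 : (0 : ℝ) ≤ J := Nat.cast_nonneg J
  set kc : ℕ := 2 ^ (J + 1) with hkcdef
  have hkc1 : 1 ≤ kc := Nat.one_le_two_pow
  have hJkc : J ≤ kc := (Nat.le_succ J).trans (Nat.lt_two_pow_self).le
  have hTkc : T ≤ kc := hTJ.trans (by exact_mod_cast hJkc)
  set k : ℕ := 4 * kc with hkdef
  have hk : 2 ≤ k := by omega
  have hk2 : (2 : ℝ) ≤ k := by exact_mod_cast hk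
  have hk0 : (0 : ℝ) < k := by linarith
  set N : ℕ := ⌈200 / ε⌉₊ with hN
  have hN1 : 200 / ε ≤ N := Nat.le_ceil _
  have hN1' : 200 ≤ N * ε := by rwa [div_le_iff₀ hε] at hN1
  have hN2 : 2 ≤ N := by
    have h1 : (200 : ℝ) ≤ N := by
      have h0 : (0 : ℝ) ≤ N := Nat.cast_nonneg N
      nlinarith
    have h2 : (200 : ℕ) ≤ N := by exact_mod_cast h1
    omega
  set D : ℕ := N * (k ^ 2 + 2 * k) with hD
  have hDk : 4 * k + 4 ≤ D := by
    have h1 : 2 * (k ^ 2 + 2 * k) ≤ N * (k ^ 2 + 2 * k) := Nat.mul_le_mul_right _ hN2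
    have h2 : 4 * k + 4 ≤ 2 * (k ^ 2 + 2 * k) := by nlinarith
    omega
  have hD2 : 2 ≤ D := by omega
  refine ⟨kc, D, hkc1, hTkc, hDk, ?_⟩
  intro W hW hWD
  have hκ : 0 < (Nat.totient W : ℝ) / W := by
    have h1 : 0 < Nat.totient W := Nat.totient_pos.2 hW
    positivity
  set κ : ℝ := (Nat.totient W : ℝ) / W with hκdef
  obtain ⟨x₀, hx₀⟩ := hup W hW
  obtain ⟨θ₀, hθ₀, hdy⟩ := dyadic_sums hC₁ hW hx₀ J
  set u : ℝ := ε / (16 * C₁ * (J + 1)) with hu
  have hu0 : 0 < u := div_pos hε (mul_pos (mul_pos (by norm_num) hC0) (by linarith))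
  refine ⟨max (max (θ₀ * k / (u * ε)) (x₀ * k / (u * ε))) (max (10 / ε) ((C₁ * κ) ^ 2)), ?_⟩
  intro a ha R hR
  have ha1 : θ₀ * k / (u * ε) ≤ a := le_trans (le_trans (le_max_left _ _) (le_max_left _ _)) ha
  have ha2 : x₀ * k / (u * ε) ≤ a := le_trans (le_trans (le_max_right _ _) (le_max_left _ _)) ha
  have ha3 : 10 / ε ≤ a := le_trans (le_trans (le_max_left _ _) (le_max_right _ _)) ha
  have ha4 : (C₁ * κ) ^ 2 ≤ a := le_trans (le_trans (le_max_right _ _) (le_max_right _ _)) ha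
  obtain ⟨ha0, ha3', ha1000⟩ := M5n_a hε hε1 ha3
  -- the scale R
  have hRlog : (1 / 4 - 2 * ε) * a ≤ Real.log R := M5n_R hε1 ha0 ha3' hR
  set L : ℝ := ε * a with hLdef
  have hL0 : 0 < L := mul_pos hε ha0
  set θ : ℝ := u * L / k with hθ
  have hθθ : θ₀ ≤ θ := M5n_th hk0 hu0 hε ha1
  have hθx : x₀ ≤ θ := M5n_th hk0 hu0 hε ha2
  have hθ0 : 0 < θ := by linarith
  have hu16 : u ≤ 1 := M5n_u hε1 hC₁ hJ0 hu
  have hΛ : 2 ^ J * θ ≤ L / 2 :=
    MD_L (by rw [hkdef, hkcdef]; push_cast; ring) hL0 hu16 hθ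
  have hLR : L ≤ Real.log R := by
    refine le_trans ?_ hRlog
    rw [hLdef]
    exact mul_le_mul_of_nonneg_right (by linarith) ha0.le
  obtain ⟨hα, hβ1, hβ2, hmom⟩ := hdy θ hθθ R (by linarith)
  -- eta
  set η : ℝ := ∑ p : PS W R, qP p ^ 2 with hη
  have hη0 : 0 ≤ η := sum_nonneg fun p _ => sq_nonneg _
  have hη1 : ((k : ℝ) ^ 2 + 2 * k) * η ≤ ε / 100 := by
    have h1 := M5_SF_eta_le hD2 hWD (R := R)
    have h2 : (D : ℝ) = N * ((k : ℝ) ^ 2 + 2 * k) := by rw [hD]; push_cast; ring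
    rw [h2] at h1
    have h3 : 0 < (k : ℝ) ^ 2 + 2 * k := add_pos (pow_pos hk0 2) (mul_pos two_pos hk0)
    have hN0 : (0 : ℝ) < N := by
      have : (2 : ℝ) ≤ N := by exact_mod_cast hN2
      linarith
    calc ((k : ℝ) ^ 2 + 2 * k) * η ≤ ((k : ℝ) ^ 2 + 2 * k) * (2 / (N * ((k : ℝ) ^ 2 + 2 * k))) :=
          mul_le_mul_of_nonneg_left h1 h3.le
      _ = 2 / N := by field_simp
      _ ≤ ε / 100 := by
          rw [div_le_div_iff₀ hN0 (by norm_num)]
          linarith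
  have hη2 : (k : ℝ) * η ≤ ε / 400 := M5n_eta hk2 hη0 hη1
  have hprime : ∀ p ∈ PS W R, p.Prime := fun p hp => (mem_PS.1 hp).2.1
  have hbigN : ∀ p ∈ PS W R, 4 * k + 4 < p := by
    intro p hp
    have h1 : D < p := by
      by_contra hcon
      exact (mem_PS.1 hp).2.2 (hWD p (hprime p hp) (not_lt.1 hcon))
    omega
  have hbig : ∀ p ∈ PS W R, 2 * (k : ℝ) + 2 ≤ p := by
    intro p hp
    have h2 : 2 * k + 2 ≤ p := by
      have := hbigN p hp
      omega
    exact_mod_cast h2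
  have hq : ∀ p : PS W R, 0 ≤ qP p := fun p => qP_nonneg p
  have hq4 : ∀ p : PS W R, qP p ≤ 1 / 4 := fun p => by
    have h1 := hbig p p.2
    unfold qP
    rw [div_le_div_iff₀ (by linarith) (by norm_num)]
    linarith
  have hkq : ∀ p : PS W R, 2 * k * qP p ≤ 1 := fun p => by
    have := hbig p p.2
    unfold qP
    rw [mul_one_div, div_le_one (by linarith)]
    linarith
  have hal : ∀ p : PS W R, 0 ≤ qP p * (1 - 2 * k * qP p) := fun p =>
    mul_nonneg (hq p) (by linarith [hkq p])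
  have haq : ∀ p : PS W R, qP p * (1 - 2 * k * qP p) ≤ qP p := fun p => by
    refine mul_le_of_le_one_right (hq p) ?_
    have : 0 ≤ 2 * k * qP p := mul_nonneg (mul_nonneg zero_le_two hk0.le) (hq p)
    linarith
  have hg0 : gP J θ (∅ : Finset (PS W R)) = 1 := by
    unfold gP
    rw [sum_empty]
    exact gJ_zero hθ0.le
  set α : ℝ := SS (qP (P := PS W R)) (gP J θ) with hαdef
  set β : ℝ := SS (qP (P := PS W R)) (fun S => gP J θ S ^ 2) with hβdef
  have hα1 : 1 ≤ α := M5_SF_one_le_SS hq M5_SF_gP_nonneg hg0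
  have hβone : 1 ≤ β := M5_SF_one_le_SS hq (fun S => sq_nonneg _) (by rw [hg0, one_pow])
  have hβ0 : 0 < β := by linarith
  have hβa := SS_one_sub_ge hq (f := fun S : Finset (PS W R) => gP J θ S ^ 2)
    (fun S => sq_nonneg _) M5_SF_gP_sq_anti (c := 2 * k) (mul_nonneg zero_le_two hk0.le) hkq
  rw [← hη, ← hβdef] at hβa
  have hmoma : SS (fun p : PS W R => qP p * (1 - 2 * k * qP p))
      (fun S => gP J θ S ^ 2 * ∑ p ∈ S, lP p) ≤ (J + 1) * C₁ * (κ * θ ^ 2) :=
    (M5_SF_SS_mono hal haq fun S => mul_nonneg (sq_nonneg _)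
      (sum_nonneg fun p _ => M5_SF_lP_nonneg p)).trans hmom
  have n1 := M5_num1 (α := α) hk hC₁ hε hε1 hu hκ hL0 hθ hη0 hη1 hΛ hβ1 hβa hmoma
  have hX0 : 0 ≤ (1 - ε / 2) * (α ^ 2 * β ^ (k - 1)) :=
    mul_nonneg (by linarith) (mul_nonneg (sq_nonneg α) (pow_nonneg hβ0.le _))
  set E₀ : ℝ := (Real.exp η * β) ^ k with hE₀
  set E₁ : ℝ := (1 - ε) * (α ^ 2 * β ^ (k - 1)) with hE₁
  have hAB1 : 1 ≤ α ^ 2 * β ^ (k - 1) :=
    one_le_mul_of_one_le_of_one_le (one_le_pow₀ hα1) (one_le_pow₀ hβone)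
  have hlow : ∀ m : Fin k, E₁ ≤ Ex (fun p : PS W R => mu1 m (p : ℝ))
      (fun e => FF (fun p : PS W R => (p : ℕ)) (yy (k := k) lP L (gP J θ)) e ^ 2) := by
    intro m
    have h1 := M5_lower_final hk hbig m J hθ0.le (Λ := L) (by linarith) n1 hX0
    refine le_trans ?_ h1
    rw [← hη, hE₁]
    exact M5n_E hε hε1 (mul_nonneg hk0.le hη0) hη2 (by linarith)
  have hyle : ∀ σ, |yy (k := k) (lP (P := PS W R)) L (gP J θ) σ| ≤ 1 := by
    intro σ
    have h1 : 0 ≤ ∏ i, gP J θ (cls σ i) := prod_nonneg fun i _ => M5_SF_gP_nonneg _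
    have h2 : ∏ i, gP J θ (cls σ i) ≤ 1 :=
      prod_le_one (fun i _ => M5_SF_gP_nonneg _) fun i _ => M5_SF_gP_le_one _
    rw [yy]
    split_ifs
    · rw [mul_one, abs_of_nonneg h1]
      exact h2
    · simp
  have hysupp : ∀ σ, yy (k := k) (lP (P := PS W R)) L (gP J θ) σ ≠ 0 →
      ∑ p ∈ supp σ, lP p ≤ L := by
    intro σ hσ
    by_contra hcon
    exact hσ (by rw [yy, if_neg hcon, mul_zero])
  have hY0 : (0 : ℝ) ≤ 0 := le_refl 0
  refine ⟨yy lP L (gP J θ), E₀, E₁, hyle, ?_, ?_, ?_, ?_, hlow, ?_, ?_⟩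
  · intro σ hσ
    exact M5_supp_dd hprime σ (hysupp σ hσ)
  · refine one_le_pow₀ (one_le_mul_of_one_le_of_one_le (Real.one_le_exp hη0) hβone)
  · rw [hE₁]
    exact M5n_half hε1 hAB1
  · have hU := M5_upper_final (k := k) hbig J θ L
    exact hU
  · exact MD_num2 hkc1 hC₁ hε hε1 (by linarith) hu hκ ha0 hθ hη0 (by rw [← hkdef]; linarith)
      hα hβ0 hβ2
  · intro m m' hmm
    refine ⟨hz m m' qP lP 0 (yy lP L (gP J θ)), ?_, ?_, ?_, ?_⟩
    · intro σ
      have hα2 : α ≤ a * (C₁ * κ) := M5n_al hθ0 hθx hΛ hLdef hε1 ha0 (mul_nonneg hC0.le hκ.le)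
        fun h1 => (M5_alpha_le hθ0.le).trans (hx₀ _ h1 R)
      have hα3 : α ^ 2 ≤ a ^ 3 := by
        calc α ^ 2 ≤ (a * (C₁ * κ)) ^ 2 := pow_le_pow_left₀ (by linarith) hα2 2
          _ = a ^ 2 * (C₁ * κ) ^ 2 := by ring
          _ ≤ a ^ 2 * a := mul_le_mul_of_nonneg_left ha4 (sq_nonneg a)
          _ = a ^ 3 := by ring
      unfold hz
      split_ifs with hσ
      · have ht : ∀ p, rem m' σ p ≠ some m ∧ rem m' σ p ≠ some m' := by
          intro p
          unfold rem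
          split_ifs with h
          · simp
          · exact ⟨hσ.1 p, h⟩
        obtain ⟨b1, b2⟩ := yy2_le m m' hmm hq (l := lP) (g := gP J θ)
          (fun S => M5_SF_gP_nonneg S) L (rem m' σ) ht
        have hZ : 1 ≤ ZZ (qP (P := PS W R)) lP 0 (rem m' σ) := by
          unfold ZZ
          have h1 : (∅ : Finset (PS W R)) ∈ (univ : Finset (Finset (PS W R))).filter
              (fun S => Disjoint S (supp (rem m' σ)) ∧ ∑ p ∈ S, lP p ≤ 0) := by
            rw [mem_filter]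
            exact ⟨mem_univ _, disjoint_empty_left _, by rw [sum_empty]⟩
          have h2 := single_le_sum (f := fun S : Finset (PS W R) => ∏ p ∈ S, qP p)
            (fun S _ => prod_nonneg fun p _ => hq p) h1
          simpa using h2
        have hprod1 : ∏ i ∈ (univ.erase m).erase m', gP J θ (cls (rem m' σ) i) ≤ 1 :=
          prod_le_one (fun i _ => M5_SF_gP_nonneg _) fun i _ => M5_SF_gP_le_one _
        rw [abs_of_nonneg (div_nonneg b1 (by linarith))]
        refine (div_le_self b1 hZ).trans (b2.trans ?_)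
        refine le_trans ?_ hα3
        exact mul_le_of_le_one_left (sq_nonneg _) hprod1
      · rw [abs_zero]; exact pow_nonneg ha0.le 3
    · intro σ hσ
      have h1 := hz_support m m' (fun p => M5_SF_lP_nonneg p) hysupp σ hσ
      refine ⟨M5_supp_dd hprime σ (h1.2.trans (le_of_eq (by rw [hLdef]; ring))), fun p => ⟨h1.1 p, ?_⟩⟩
      intro hpm
      have h2 : ∑ p ∈ cls σ m', lP p ≤ 0 := by
        by_contra hcon
        refine hσ ?_
        unfold hz
        rw [if_neg]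
        exact fun h => hcon h.2
      have h3 : lP p ≤ ∑ p ∈ cls σ m', lP p :=
        single_le_sum (f := fun p : PS W R => lP p) (fun q _ => M5_SF_lP_nonneg q)
          ((M3_mem_cls σ m' p).2 hpm)
      have h4 : 0 < lP p := Real.log_pos (by exact_mod_cast (hprime p p.2).one_lt)
      linarith
    · intro e he
      exact FF_hz (fun p : PS W R => (p : ℕ)) (fun p => (hprime p p.2).two_le) m m' hmm lP _ hY0 _ e he
    · have h2 := hz_form hk m m' hmm hq hq4 (fun p => M5_SF_lP_nonneg p) (g := gP J θ)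
        (fun S => M5_SF_gP_nonneg S) hY0 L
      rw [← hη] at h2
      have hP := M5_prod_le (P := PS W R) (c := 8) (by norm_num)
      rw [← hη] at hP
      have hP0 : 0 ≤ ∏ p : PS W R, (1 + 8 * (1 / (((p : ℕ) : ℝ) - 1)) ^ 2) :=
        prod_nonneg fun p _ => add_nonneg zero_le_one (mul_nonneg (by norm_num) (sq_nonneg _))
      have hβz := SS_one_add_six hq hq4 (f := fun S : Finset (PS W R) => gP J θ S ^ 2)
        (fun S => sq_nonneg _) M5_SF_gP_sq_anti
      rw [← hη, ← hβdef] at hβz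
      have hβz0 : 0 ≤ SS (fun p : PS W R => qP p * (1 + 6 * qP p)) (fun S => gP J θ S ^ 2) :=
        sum_nonneg fun S _ => mul_nonneg (sq_nonneg _)
          (prod_nonneg fun p _ => mul_nonneg (hq p) (by linarith [hq p]))
      have hD1 : 1 ≤ SS (qP (P := PS W R)) (fun S => if ∑ p ∈ S, lP p ≤ 0 then 1 else 0) :=
        M5_SF_one_le_SS hq (fun S => by split_ifs <;> norm_num) (by simp)
      refine MD_num3 (α := α) hk hε hε1 hη0 hη2 hβ0 hβz hβz0 hP ?_
      refine mul_le_mul_of_nonneg_left ?_ hP0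
      refine h2.trans (div_le_self ?_ hD1)
      exact mul_nonneg (mul_nonneg (Real.exp_pos _).le (pow_nonneg (by linarith) 4))
        (pow_nonneg hβz0 _)

end Pool.Agent.AT
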